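import Mathlib

/-! Algebraic part of the perimeter-quadrisection inequality. -/

namespace Pool.Agent.Lib_helper16.Quad

lemma denom_nonneg {α β L p : ℝ} (hα : 0 ≤ α) (hβ : 0 ≤ β) (hL : 0 ≤ L) (hp : -1 ≤ p) (hp1 : p ≤ 1)
    (hs : 0 ≤ α * (1 - p^2) + 2 * p * β) (hLe : α^2 + β^2 ≤ L^2) :
    0 ≤ (L + α - β) + (L + α + β) * p := by
  have hLβ : β ≤ L := by nlinarith
  rcases le_or_gt 0 p with h | h
  · have : 0 ≤ (L + α + β) * p := by positivity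
    linarith
  · -- π = -p
    obtain ⟨t, rfl⟩ : ∃ t, p = -t := ⟨-p, by ring⟩
    have ht : 0 < t := by linarith
    have ht1 : t ≤ 1 := by linarith
    have hs' : 2 * t * β ≤ α * (1 - t^2) := by nlinarith
    have h1 : 0 ≤ 1 - t^2 := by nlinarith
    have h2 : (β * (1 + t^2))^2 ≤ (L * (1 - t^2))^2 := by
      have e1 : (2 * t * β)^2 ≤ (α * (1 - t^2))^2 := by
        apply pow_le_pow_left₀ (by positivity) hs'
      have e2 : (α^2 + β^2) * (1 - t^2)^2 ≤ L^2 * (1-t^2)^2 := by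
        apply mul_le_mul_of_nonneg_right hLe (by positivity)
      nlinarith
    have h3 : β * (1 + t^2) ≤ L * (1 - t^2) :=
      (sq_le_sq₀ (by positivity) (by positivity)).1 h2
    have h4 : β * (1 + t) * (1 + t) ≤ (L + α) * (1 - t) * (1 + t) := by nlinarith
    have h5 : β * (1 + t) ≤ (L + α) * (1 - t) := le_of_mul_le_mul_right h4 (by linarith)
    nlinarith

/-- one step of the chain -/
lemma step {N D q r A11 A12 A21 A22 : ℝ} (hD : 0 ≤ D) (hq : q * D ≤ N)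
    (h21 : 0 ≤ A21) (hden : 0 ≤ A21 * q + A22) (hr : 0 ≤ A11 - r * A21)
    (hM : r * (A21 * q + A22) ≤ A11 * q + A12) :
    0 ≤ A21 * N + A22 * D ∧ r * (A21 * N + A22 * D) ≤ A11 * N + A12 * D := by
  have h1 : A21 * (q * D) ≤ A21 * N := mul_le_mul_of_nonneg_left hq h21
  have h2 : 0 ≤ (A21 * q + A22) * D := mul_nonneg hden hD
  have h3 : (A11 - r * A21) * (q * D) ≤ (A11 - r * A21) * N := mul_le_mul_of_nonneg_left hq hr
  have h4 : (r * (A21 * q + A22)) * D ≤ (A11 * q + A12) * D := mul_le_mul_of_nonneg_right hM hD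
  constructor
  · nlinarith
  · nlinarith

def mN (L x y N D : ℝ) : ℝ := (L + y - x) * N + (x + y - L) * D
def mD (L x y N D : ℝ) : ℝ := (L + x + y) * N + (L + x - y) * D

/-- the step for the corner with legs `x, y` -/
lemma cstep {L x y p q N D : ℝ} (hx : 0 ≤ x) (hy : 0 ≤ y) (hL : 0 ≤ L)
    (hp : -1 ≤ p) (hp1 : p ≤ 1) (hq : -1 ≤ q) (hq1 : q ≤ 1)
    (hs : 0 ≤ x * (1 - p^2) + 2 * p * y) (hs' : 0 ≤ y * (1 - q^2) - 2 * q * x)
    (hLe : x^2 + y^2 ≤ L^2)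
    (h : L * (1 - p + q + p * q) ≤ x * (1 - p - q - p * q) + y * (1 + p + q - p * q))
    (hD : 0 ≤ D) (hN : p * D ≤ N) :
    0 ≤ mD L x y N D ∧ q * mD L x y N D ≤ mN L x y N D := by
  unfold mD mN
  apply step hD hN (by positivity)
  · have := denom_nonneg hx hy hL hp hp1 hs hLe
    linarith
  · have := denom_nonneg (p := -q) hy hx hL (by linarith) (by linarith) (by nlinarith) (by linarith)
    linarith
  · nlinarith

/-- The polynomial inequality: if `w ≥ |uκ|+|vη|` ... then `4τ < w² - m²`. -/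
lemma final_poly {L a b c d : ℝ} (ha : 0 ≤ a) (hb : 0 ≤ b) (hc : 0 ≤ c) (hd : 0 ≤ d)
    (hu : 0 < a + c) (hv : 0 < b + d) (hL : a + b + c + d < 2 * L)
    (e1 : a^2 + b^2 ≤ L^2) (e2 : b^2 + c^2 ≤ L^2) (e3 : c^2 + d^2 ≤ L^2) (e4 : d^2 + a^2 ≤ L^2)
    (τ : ℝ) (hτ : τ = -(L^2 - a*c - b*d)^2 + 8*(a*b*c*d) - (c-a)^2*(L^2 - b*d) - (b-d)^2*(L^2 - a*c))
    (h0 : 0 ≤ τ)
    (h : (L^2 - (a^2 + b^2)) * (L^2 - (b^2 + c^2)) * (L^2 - (c^2 + d^2)) * (L^2 - (d^2 + a^2)) ≤ τ^2) :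
    False := by
  obtain ⟨w, hw⟩ : ∃ w, w = 2 * L^2 - (a^2+b^2+c^2+d^2) := ⟨_, rfl⟩
  obtain ⟨u, hu'⟩ : ∃ u, u = a + c := ⟨_, rfl⟩
  obtain ⟨v, hv'⟩ : ∃ v, v = b + d := ⟨_, rfl⟩
  obtain ⟨k, hk⟩ : ∃ k, k = c - a := ⟨_, rfl⟩
  obtain ⟨n, hn⟩ : ∃ n, n = b - d := ⟨_, rfl⟩
  have hu0 : 0 < u := by linarith
  have hv0 : 0 < v := by linarith
  have hwl : u * v - (k^2 + n^2)/2 < w := by
    have : (a+b+c+d)^2 < (2*L)^2 := by
      apply pow_lt_pow_left₀ hL (by positivity) (by norm_num)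
    subst hw hu' hv' hk hn
    nlinarith
  -- w + θ > uv + θ/2
  have h4 : w^2 - (u^2*k^2 + v^2*n^2 + 2*u*v*|k*n|) - 4*τ
      = 2*(w + (k^2+n^2))^2 - 2*u^2*v^2 + 2*u^2*n^2 + 2*v^2*k^2 - 2*u*v*|k*n| := by
    have : w^2 - (u^2*k^2 + v^2*n^2) - 4*τ
      = 2*(w + (k^2+n^2))^2 - 2*u^2*v^2 + 2*u^2*n^2 + 2*v^2*k^2 := by
      subst hτ hw hu' hv' hk hn
      ring
    linarith
  have hkn : 2 * |k*n| ≤ k^2 + n^2 := by
    have h := two_mul_le_add_sq |k| |n|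
    rw [sq_abs, sq_abs] at h
    rw [abs_mul]
    linarith
  have hpos : 0 < w^2 - (u^2*k^2 + v^2*n^2 + 2*u*v*|k*n|) - 4*τ := by
    rw [h4]
    have huv : 0 < u * v := by positivity
    have h5 : (u*v + (k^2+n^2)/2)^2 < (w + (k^2+n^2))^2 := by
      apply pow_lt_pow_left₀ (by linarith) (by positivity) (by norm_num)
    have h6 : u*v*(2*|k*n|) ≤ u*v*(k^2+n^2) := mul_le_mul_of_nonneg_left hkn huv.le
    have h7 : 0 ≤ u*v*(k^2+n^2) := by positivity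
    have h8 : (u*v + (k^2+n^2)/2)^2 = u^2*v^2 + u*v*(k^2+n^2) + (k^2+n^2)^2/4 := by ring
    have h9 : 0 ≤ (k^2+n^2)^2/4 := by positivity
    have h10 : 0 ≤ 2*u^2*n^2 := by positivity
    have h11 : 0 ≤ 2*v^2*k^2 := by positivity
    have h12 : u*v*(2*|k*n|) = 2*u*v*|k*n| := by ring
    linarith
  -- product bound
  have hg1' : w + (u*k - v*n) = 2*(L^2 - (a^2+b^2)) := by subst hw hu' hv' hk hn; ring
  have hg2' : w - (u*k - v*n) = 2*(L^2 - (c^2+d^2)) := by subst hw hu' hv' hk hn; ring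
  have hg3' : w + (u*k + v*n) = 2*(L^2 - (d^2+a^2)) := by subst hw hu' hv' hk hn; ring
  have hg4' : w - (u*k + v*n) = 2*(L^2 - (b^2+c^2)) := by subst hw hu' hv' hk hn; ring
  have hg1 : 0 ≤ w + (u*k - v*n) := by rw [hg1']; linarith
  have hg2 : 0 ≤ w - (u*k - v*n) := by rw [hg2']; linarith
  have hg3 : 0 ≤ w + (u*k + v*n) := by rw [hg3']; linarith
  have hg4 : 0 ≤ w - (u*k + v*n) := by rw [hg4']; linarith
  have hprod : 16 * ((L^2 - (a^2 + b^2)) * (L^2 - (b^2 + c^2)) * (L^2 - (c^2 + d^2)) * (L^2 - (d^2 + a^2)))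
      = (w^2 - (u*k - v*n)^2) * (w^2 - (u*k+v*n)^2) := by
    subst hw hu' hv' hk hn
    ring
  have hA : 0 ≤ w^2 - (u*k - v*n)^2 := by
    have := mul_nonneg hg1 hg2
    have e : (w + (u*k - v*n)) * (w - (u*k - v*n)) = w^2 - (u*k - v*n)^2 := by ring
    linarith
  have hB : 0 ≤ w^2 - (u*k + v*n)^2 := by
    have := mul_nonneg hg3 hg4
    have e : (w + (u*k + v*n)) * (w - (u*k + v*n)) = w^2 - (u*k + v*n)^2 := by ring
    linarith
  obtain ⟨m, hm⟩ : ∃ m, m = w^2 - (u^2*k^2 + v^2*n^2 + 2*u*v*|k*n|) := ⟨_, rfl⟩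
  have huv : 0 < u * v := by positivity
  have hmm : 0 ≤ m ∧ m^2 ≤ (w^2 - (u*k - v*n)^2) * (w^2 - (u*k+v*n)^2) := by
    rcases le_total 0 (k*n) with hkn | hkn
    · rw [abs_of_nonneg hkn] at hm
      have : m = w^2 - (u*k+v*n)^2 := by rw [hm]; ring
      have h8 : m ≤ w^2 - (u*k - v*n)^2 := by
        rw [this]
        have h0 : 0 ≤ u*v*(k*n) := mul_nonneg huv.le hkn
        have e : (u*k+v*n)^2 - (u*k-v*n)^2 = 4*(u*v*(k*n)) := by ring
        linarith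
      refine ⟨by rw [this]; exact hB, ?_⟩
      rw [← this, sq]
      apply mul_le_mul_of_nonneg_right h8
      rw [this]; exact hB
    · rw [abs_of_nonpos hkn] at hm
      have : m = w^2 - (u*k-v*n)^2 := by rw [hm]; ring
      have h8 : m ≤ w^2 - (u*k + v*n)^2 := by
        rw [this]
        have h0 : 0 ≤ u*v*(-(k*n)) := mul_nonneg huv.le (by linarith)
        have e : (u*k-v*n)^2 - (u*k+v*n)^2 = 4*(u*v*(-(k*n))) := by ring
        linarith
      refine ⟨by rw [this]; exact hA, ?_⟩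
      rw [← this, sq]
      apply mul_le_mul_of_nonneg_left h8
      rw [this]; exact hA
  obtain ⟨hm0, hm1⟩ := hmm
  have h9 : m^2 ≤ (4*τ)^2 := by
    have e : (4*τ)^2 = 16 * τ^2 := by ring
    linarith
  have h10 : m ≤ 4 * τ := (sq_le_sq₀ hm0 (by linarith)).1 h9
  rw [← hm] at hpos
  linarith

theorem alg {L a b c d p q r s : ℝ} (ha : 0 ≤ a) (hb : 0 ≤ b) (hc : 0 ≤ c) (hd : 0 ≤ d)
    (hu : 0 < a + c) (hv : 0 < b + d) (hL : 0 ≤ L)
    (hp : -1 ≤ p) (hp1 : p ≤ 1) (hq : -1 ≤ q) (hq1 : q ≤ 1)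
    (hr : -1 ≤ r) (hr1 : r ≤ 1) (hs : -1 ≤ s) (hs1 : s ≤ 1)
    (sab : 0 ≤ a * (1 - p^2) + 2 * p * b) (sba : 0 ≤ b * (1 - q^2) - 2 * q * a)
    (sbc : 0 ≤ b * (1 - q^2) + 2 * q * c) (scb : 0 ≤ c * (1 - r^2) - 2 * r * b)
    (scd : 0 ≤ c * (1 - r^2) + 2 * r * d) (sdc : 0 ≤ d * (1 - s^2) - 2 * s * c)
    (sda : 0 ≤ d * (1 - s^2) + 2 * s * a) (sad : 0 ≤ a * (1 - p^2) - 2 * p * d)
    (e1 : a^2 + b^2 ≤ L^2) (e2 : b^2 + c^2 ≤ L^2) (e3 : c^2 + d^2 ≤ L^2) (e4 : d^2 + a^2 ≤ L^2)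
    (h1 : L * (1 - p + q + p * q) ≤ a * (1 - p - q - p * q) + b * (1 + p + q - p * q))
    (h2 : L * (1 - q + r + q * r) ≤ b * (1 - q - r - q * r) + c * (1 + q + r - q * r))
    (h3 : L * (1 - r + s + r * s) ≤ c * (1 - r - s - r * s) + d * (1 + r + s - r * s))
    (h4 : L * (1 - s + p + s * p) ≤ d * (1 - s - p - s * p) + a * (1 + s + p - s * p)) :
    2 * L ≤ a + b + c + d := by
  by_contra hcon
  push Not at hcon
  -- the matrix of the composition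
  obtain ⟨f1, g1⟩ := cstep ha hb hL hp hp1 hq hq1 sab sba e1 h1 (N := p) (D := 1) (by norm_num) (by linarith)
  obtain ⟨f2, g2⟩ := cstep hb hc hL hq hq1 hr hr1 sbc scb e2 h2 f1 g1
  obtain ⟨f3, g3⟩ := cstep hc hd hL hr hr1 hs hs1 scd sdc e3 h3 f2 g2
  obtain ⟨f4, g4⟩ := cstep hd ha hL hs hs1 hp hp1 sda sad e4 h4 f3 g3
  obtain ⟨f1', g1'⟩ := cstep ha hb hL hp hp1 hq hq1 sab sba e1 h1 (N := 1) (D := 0) (by norm_num) (by linarith)
  obtain ⟨f2', g2'⟩ := cstep hb hc hL hq hq1 hr hr1 sbc scb e2 h2 f1' g1'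
  obtain ⟨f3', g3'⟩ := cstep hc hd hL hr hr1 hs hs1 scd sdc e3 h3 f2' g2'
  obtain ⟨f4', g4'⟩ := cstep hd ha hL hs hs1 hp hp1 sda sad e4 h4 f3' g3'
  obtain ⟨τ, hτ⟩ : ∃ τ, τ = -(L^2 - a*c - b*d)^2 + 8*(a*b*c*d) - (c-a)^2*(L^2 - b*d) - (b-d)^2*(L^2 - a*c) := ⟨_, rfl⟩
  obtain ⟨X, hX⟩ : ∃ X, X = (L^2 - (a^2 + b^2)) * (L^2 - (b^2 + c^2)) * (L^2 - (c^2 + d^2)) * (L^2 - (d^2 + a^2)) := ⟨_, rfl⟩
  have htr : mD L d a (mN L c d (mN L b c (mN L a b p 1) (mD L a b p 1))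
        (mD L b c (mN L a b p 1) (mD L a b p 1)))
        (mD L c d (mN L b c (mN L a b p 1) (mD L a b p 1)) (mD L b c (mN L a b p 1) (mD L a b p 1)))
      + (mN L d a (mN L c d (mN L b c (mN L a b 1 0) (mD L a b 1 0))
        (mD L b c (mN L a b 1 0) (mD L a b 1 0)))
        (mD L c d (mN L b c (mN L a b 1 0) (mD L a b 1 0)) (mD L b c (mN L a b 1 0) (mD L a b 1 0)))
        - p * mD L d a (mN L c d (mN L b c (mN L a b 1 0) (mD L a b 1 0))
        (mD L b c (mN L a b 1 0) (mD L a b 1 0)))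
        (mD L c d (mN L b c (mN L a b 1 0) (mD L a b 1 0)) (mD L b c (mN L a b 1 0) (mD L a b 1 0))))
      = 8 * τ := by
    rw [hτ]
    simp only [mN, mD]
    ring
  have hdet : mD L d a (mN L c d (mN L b c (mN L a b p 1) (mD L a b p 1))
        (mD L b c (mN L a b p 1) (mD L a b p 1)))
        (mD L c d (mN L b c (mN L a b p 1) (mD L a b p 1)) (mD L b c (mN L a b p 1) (mD L a b p 1)))
      * (mN L d a (mN L c d (mN L b c (mN L a b 1 0) (mD L a b 1 0))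
        (mD L b c (mN L a b 1 0) (mD L a b 1 0)))
        (mD L c d (mN L b c (mN L a b 1 0) (mD L a b 1 0)) (mD L b c (mN L a b 1 0) (mD L a b 1 0)))
        - p * mD L d a (mN L c d (mN L b c (mN L a b 1 0) (mD L a b 1 0))
        (mD L b c (mN L a b 1 0) (mD L a b 1 0)))
        (mD L c d (mN L b c (mN L a b 1 0) (mD L a b 1 0)) (mD L b c (mN L a b 1 0) (mD L a b 1 0))))
      = 16 * X + mD L d a (mN L c d (mN L b c (mN L a b 1 0) (mD L a b 1 0))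
        (mD L b c (mN L a b 1 0) (mD L a b 1 0)))
        (mD L c d (mN L b c (mN L a b 1 0) (mD L a b 1 0)) (mD L b c (mN L a b 1 0) (mD L a b 1 0)))
       * (mN L d a (mN L c d (mN L b c (mN L a b p 1) (mD L a b p 1))
        (mD L b c (mN L a b p 1) (mD L a b p 1)))
        (mD L c d (mN L b c (mN L a b p 1) (mD L a b p 1)) (mD L b c (mN L a b p 1) (mD L a b p 1)))
        - p * mD L d a (mN L c d (mN L b c (mN L a b p 1) (mD L a b p 1))
        (mD L b c (mN L a b p 1) (mD L a b p 1)))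
        (mD L c d (mN L b c (mN L a b p 1) (mD L a b p 1)) (mD L b c (mN L a b p 1) (mD L a b p 1)))) := by
    rw [hX]
    simp only [mN, mD]
    ring
  generalize mD L d a (mN L c d (mN L b c (mN L a b p 1) (mD L a b p 1))
        (mD L b c (mN L a b p 1) (mD L a b p 1)))
        (mD L c d (mN L b c (mN L a b p 1) (mD L a b p 1)) (mD L b c (mN L a b p 1) (mD L a b p 1))) = y at *
  generalize mN L d a (mN L c d (mN L b c (mN L a b p 1) (mD L a b p 1))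
        (mD L b c (mN L a b p 1) (mD L a b p 1)))
        (mD L c d (mN L b c (mN L a b p 1) (mD L a b p 1)) (mD L b c (mN L a b p 1) (mD L a b p 1))) = z at *
  generalize mD L d a (mN L c d (mN L b c (mN L a b 1 0) (mD L a b 1 0))
        (mD L b c (mN L a b 1 0) (mD L a b 1 0)))
        (mD L c d (mN L b c (mN L a b 1 0) (mD L a b 1 0)) (mD L b c (mN L a b 1 0) (mD L a b 1 0))) = y' at *
  generalize mN L d a (mN L c d (mN L b c (mN L a b 1 0) (mD L a b 1 0))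
        (mD L b c (mN L a b 1 0) (mD L a b 1 0)))
        (mD L c d (mN L b c (mN L a b 1 0) (mD L a b 1 0)) (mD L b c (mN L a b 1 0) (mD L a b 1 0))) = z' at *
  have k1 : 0 ≤ z' - p * y' := by linarith
  have k2 : 0 ≤ y' * (z - p * y) := mul_nonneg f4' (by linarith)
  refine final_poly ha hb hc hd hu hv hcon e1 e2 e3 e4 τ hτ ?_ ?_
  · linarith
  · rw [← hX]
    obtain ⟨y2, hy2⟩ : ∃ y2, y2 = z' - p * y' := ⟨_, rfl⟩
    rw [← hy2] at htr hdet k1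
    have e1 : (8 * τ)^2 = (y + y2)^2 := by rw [htr]
    have e2 : (y + y2)^2 = (y - y2)^2 + 4 * (y * y2) := by ring
    have e3 : 0 ≤ (y - y2)^2 := sq_nonneg _
    have e4 : (8 * τ)^2 = 64 * τ^2 := by ring
    linarith

end Pool.Agent.Lib_helper16.Quad
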