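import Pool.Agent.Lib_helper16.QuadTop

/-! The corner inequality. -/

open Set Metric

namespace Pool.Agent.Lib_helper16.Quad

/-- `x`, `y` are the coordinate functions of an orthonormal affine frame. -/
structure Frame (x y : E2 → ℝ) : Prop where
  affx : ∀ z z' (l : ℝ), x (z + l • (z' - z)) = x z + l * (x z' - x z)
  affy : ∀ z z' (l : ℝ), y (z + l • (z' - z)) = y z + l * (y z' - y z)
  dist_sq : ∀ z z', dist z z' ^ 2 = (x z - x z')^2 + (y z - y z')^2
  basis : ∃ i j : E2, ∀ z z', z - z' = (x z - x z') • i + (y z - y z') • j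

lemma Frame.rot {x y : E2 → ℝ} (fr : Frame x y) : Frame (fun z => -y z) x where
  affx z z' l := by rw [fr.affy]; ring
  affy := fr.affx
  dist_sq z z' := by rw [fr.dist_sq]; ring
  basis := by
    obtain ⟨i, j, h⟩ := fr.basis
    refine ⟨-j, i, fun z z' => ?_⟩
    rw [h z z']
    ext k
    simp
    ring

variable {F : Set E2} {γ : ℝ → E2} {x y : E2 → ℝ}

lemma exists_support (hF : Convex ℝ F) (hint : (interior F).Nonempty) (fr : Frame x y)
    {P P2 : E2} {α : ℝ} (hP : P ∈ frontier F) (hx : x P = -α) (hy : y P = 0)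
    (hP2 : P2 ∈ F) (hx2 : -α < x P2) (hy2 : y P2 = 0) :
    ∃ p : ℝ, -1 ≤ p ∧ p ≤ 1 ∧ ∀ z ∈ F, 0 ≤ (1 - p^2) * (x z + α) + 2 * p * y z := by
  have hPi : P ∉ interior F := by
    intro h
    exact hP.2 h
  obtain ⟨f, hf⟩ := geometric_hahn_banach_open_point hF.interior isOpen_interior hPi
  have hfF : ∀ z ∈ F, f z ≤ f P := by
    intro z hz
    have hz' : z ∈ closure (interior F) := by
      rw [hF.closure_interior_eq_closure_of_nonempty_interior hint]
      exact subset_closure hz
    have hcl : closure (interior F) ⊆ {w | f w ≤ f P} := by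
      apply closure_minimal
      · intro w hw; exact (hf w hw).le
      · exact isClosed_le f.continuous continuous_const
    exact hcl hz'
  obtain ⟨i, j, hij⟩ := fr.basis
  obtain ⟨A, hA⟩ : ∃ A, A = - f i := ⟨_, rfl⟩
  obtain ⟨B, hB⟩ : ∃ B, B = - f j := ⟨_, rfl⟩
  have hfz : ∀ z, f z - f P = -(A * (x z + α) + B * y z) := by
    intro z
    rw [← map_sub, hij z P, map_add, map_smul, map_smul, hx, hy, hA, hB, smul_eq_mul, smul_eq_mul]
    ring
  have hAB : ∀ z ∈ F, 0 ≤ A * (x z + α) + B * y z := by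
    intro z hz
    have := hfz z
    have := hfF z hz
    linarith
  have hA0 : 0 ≤ A := by
    have := hAB P2 hP2
    rw [hy2] at this
    have h2 : 0 < x P2 + α := by linarith
    have h3 : 0 ≤ A * (x P2 + α) := by linarith
    exact nonneg_of_mul_nonneg_left h3 h2
  have hne : A ≠ 0 ∨ B ≠ 0 := by
    by_contra hcon
    push Not at hcon
    obtain ⟨m, hm⟩ := hint
    have h1 := hf m hm
    have h2 := hfz m
    rw [hcon.1, hcon.2] at h2
    linarith
  obtain ⟨ρ, hρ⟩ : ∃ ρ, ρ = Real.sqrt (A^2 + B^2) := ⟨_, rfl⟩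
  have hpos : 0 < A^2 + B^2 := by
    rcases hne with h | h
    · have := sq_pos_of_ne_zero h
      nlinarith [sq_nonneg B]
    · have := sq_pos_of_ne_zero h
      nlinarith [sq_nonneg A]
  have hρ0 : 0 < ρ := by rw [hρ]; exact Real.sqrt_pos.2 hpos
  have hρ2 : ρ^2 = A^2 + B^2 := by rw [hρ]; exact Real.sq_sqrt hpos.le
  have hBρ : |B| ≤ ρ := by
    rw [hρ]; apply Real.abs_le_sqrt; nlinarith [sq_nonneg A]
  have hs : 0 < ρ + A := by linarith
  refine ⟨B / (ρ + A), ?_, ?_, ?_⟩
  · rw [le_div_iff₀ hs]; linarith [(abs_le.1 hBρ).1]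
  · rw [div_le_one hs]; linarith [(abs_le.1 hBρ).2]
  · intro z hz
    have h1 : (1 - (B / (ρ + A))^2) * (x z + α) + 2 * (B / (ρ + A)) * y z
        = 2 / (ρ + A) * (A * (x z + α) + B * y z) := by
      have : B^2 = ρ^2 - A^2 := by linarith
      rw [div_pow, this]
      field_simp
      ring
    rw [h1]
    exact mul_nonneg (by positivity) (hAB z hz)

/-- A functional between its values at the endpoints is monotone along a convex arc. -/
lemma mono_of_between (hF : Convex ℝ F) (hc : IsCompact F) (h : BoundaryLoop F γ)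
    (fr : Frame x y) {t0 t1 : ℝ} (h4 : t1 ≤ t0 + 4) (A B : ℝ)
    (hlo : ∀ s ∈ Icc t0 t1, A * x (γ t0) + B * y (γ t0) ≤ A * x (γ s) + B * y (γ s))
    (hhi : ∀ s ∈ Icc t0 t1, A * x (γ s) + B * y (γ s) ≤ A * x (γ t1) + B * y (γ t1)) :
    MonotoneOn (fun t => A * x (γ t) + B * y (γ t)) (Icc t0 t1) := by
  intro s hs t ht hst
  simp only
  obtain ⟨w, hw1, hw2⟩ := crossing hF hc h hs.1 hst ht.2 h4
  rw [segment_eq_image'] at hw1 hw2
  obtain ⟨l, hl, rfl⟩ := hw1
  obtain ⟨m, hm, hlm⟩ := hw2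
  simp only at hlm
  have h1 : A * x (γ t0 + l • (γ t - γ t0)) + B * y (γ t0 + l • (γ t - γ t0)) ≤
      A * x (γ t) + B * y (γ t) := by
    rw [fr.affx, fr.affy]
    have := hlo t ht
    nlinarith [hl.1, hl.2]
  have h2 : A * x (γ s) + B * y (γ s) ≤ A * x (γ t0 + l • (γ t - γ t0)) + B * y (γ t0 + l • (γ t - γ t0)) := by
    rw [← hlm, fr.affx, fr.affy]
    have := hhi s hs
    nlinarith [hm.1, hm.2]
  linarith

lemma kprime_nonneg {α β p q k k' : ℝ} (hα : 0 ≤ α) (hβ : 0 ≤ β) (hαβ : 0 < α ∨ 0 < β)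
    (hp : -1 ≤ p) (hp1 : p ≤ 1) (hq : -1 ≤ q) (hq1 : q ≤ 1) (hk : 0 < k)
    (hkdef : k = 1 - p + q + p * q) (hk'def : k' = 1 + p - q + p * q)
    (m1 : 0 ≤ (1 - p^2) * α + 2 * p * β) (m2 : 0 ≤ (1 - q^2) * β - 2 * q * α) : 0 ≤ k' := by
  have hp2 : 0 ≤ 1 - p^2 := by nlinarith
  have hq2 : 0 ≤ 1 - q^2 := by nlinarith
  have hkk' : k * k' = (1 - p^2) * (1 - q^2) + 4 * p * q := by rw [hkdef, hk'def]; ring
  by_contra hneg
  push Not at hneg
  have hG : (1 - p^2) * (1 - q^2) + 4 * p * q < 0 := by rw [← hkk']; exact mul_neg_of_pos_of_neg hk hneg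
  have hpq : p * q < 0 := by
    have := mul_nonneg hp2 hq2
    linarith
  rw [hk'def] at hneg
  have hpneg : p < 0 := by
    by_contra hcon
    push Not at hcon
    have hq0 : q < 0 := by
      by_contra h
      push Not at h
      have := mul_nonneg hcon h
      linarith
    have h1 : 0 ≤ (1 + q) * p := mul_nonneg (by linarith) hcon
    have h2 : (1 + q) * p = p + p * q := by ring
    linarith
  have hqpos : 0 < q := by
    by_contra h
    push Not at h
    have := mul_nonneg_of_nonpos_of_nonpos hpneg.le h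
    linarith
  -- multiply the two support inequalities
  have m1 : -(2 * p) * β ≤ (1 - p^2) * α := by linarith
  have m2 : 2 * q * α ≤ (1 - q^2) * β := by linarith
  rcases hα.eq_or_lt with h0 | hαp
  · rw [← h0] at m1 hαβ
    have hβp : 0 < β := by
      rcases hαβ with h | h
      · exact absurd h (lt_irrefl _)
      · exact h
    have := mul_pos (show 0 < -(2*p) by linarith) hβp
    linarith
  rcases hβ.eq_or_lt with h0 | hβp
  · rw [← h0] at m2
    have := mul_pos (show 0 < 2*q by linarith) hαp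
    linarith
  have m3 : (-(2 * p) * β) * (2 * q * α) ≤ ((1 - p^2) * α) * ((1 - q^2) * β) := by
    apply mul_le_mul m1 m2
    · apply mul_nonneg (by linarith) hα
    · exact mul_nonneg hp2 hα
  have hab : 0 < α * β := mul_pos hαp hβp
  have m5 : ((1 - p^2) * (1 - q^2) + 4 * p * q) * (α * β) < 0 := mul_neg_of_neg_of_pos hG hab
  have m6 : ((1 - p^2) * (1 - q^2) + 4 * p * q) * (α * β) =
    ((1 - p^2) * α) * ((1 - q^2) * β) - (-(2 * p) * β) * (2 * q * α) := by ring
  linarith

set_option maxHeartbeats 4000000 in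
theorem corner (hF : Convex ℝ F) (hc : IsCompact F) (h : BoundaryLoop F γ)
    (fr : Frame x y) (t0 : ℝ) {α β c d : ℝ} (hα : 0 ≤ α) (hβ : 0 ≤ β) (_hcc : 0 ≤ c) (_hdd : 0 ≤ d)
    (hu : 0 < α + c) (hv : 0 < β + d)
    (x0 : x (γ t0) = -α) (y0 : y (γ t0) = 0) (x1 : x (γ (t0+1)) = 0) (y1 : y (γ (t0+1)) = β)
    (x2 : x (γ (t0+2)) = c) (y2 : y (γ (t0+2)) = 0) (x3 : x (γ (t0+3)) = 0) (y3 : y (γ (t0+3)) = -d)
    {p q : ℝ} (hp : -1 ≤ p) (hp1 : p ≤ 1) (hq : -1 ≤ q) (hq1 : q ≤ 1)
    (sup0 : ∀ z ∈ F, 0 ≤ (1 - p^2) * (x z + α) + 2 * p * y z)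
    (sup1 : ∀ z ∈ F, 0 ≤ (1 - q^2) * (β - y z) + 2 * q * x z)
    {L : ℝ} (hL : 0 ≤ L) (hvar : ENNReal.ofReal L ≤ eVariationOn γ (Icc t0 (t0+1))) :
    L * (1 - p + q + p * q) ≤ α * (1 - p - q - p * q) + β * (1 + p + q - p * q) := by
  have hp2 : 0 ≤ 1 - p^2 := by nlinarith
  have hq2 : 0 ≤ 1 - q^2 := by nlinarith
  rcases le_or_gt (1 - p + q + p * q) 0 with hk | hk
  · -- diverging support lines
    have h1 : L * (1 - p + q + p * q) ≤ 0 := mul_nonpos_of_nonneg_of_nonpos hL hk
    have h2 : 0 ≤ 1 - p - q - p * q := by nlinarith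
    have h3 : 0 ≤ 1 + p + q - p * q := by nlinarith
    have := mul_nonneg hα h2
    have := mul_nonneg hβ h3
    linarith
  obtain ⟨σa, hσa⟩ : ∃ σ, σ = (1 - p^2) * α + 2 * p * β := ⟨_, rfl⟩
  obtain ⟨σb, hσb⟩ : ∃ σ, σ = (1 - q^2) * β - 2 * q * α := ⟨_, rfl⟩
  have hmem : ∀ t, γ t ∈ F := fun t => h.mem hc t
  have hσa0 : 0 ≤ σa := by
    have := sup0 _ (hmem (t0+1)); rw [x1, y1] at this; rw [hσa]; linarith
  have hσb0 : 0 ≤ σb := by
    have := sup1 _ (hmem t0); rw [x0, y0] at this; rw [hσb]; linarith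
  have hαβ : 0 < α ∨ 0 < β := by
    by_contra hcon
    push Not at hcon
    have ha : α = 0 := le_antisymm hcon.1 hα
    have hb : β = 0 := le_antisymm hcon.2 hβ
    have h1 := fr.dist_sq (γ t0) (γ (t0+1))
    rw [x0, y0, x1, y1, ha, hb] at h1
    have h2 : dist (γ t0) (γ (t0+1)) = 0 := by
      have : dist (γ t0) (γ (t0+1)) ^ 2 = 0 := by rw [h1]; ring
      exact pow_eq_zero_iff (by norm_num) |>.1 this
    exact h.ne (s := t0) (t := t0+1) (by linarith) (by linarith) (dist_eq_zero.1 h2)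
  obtain ⟨k, hkdef⟩ : ∃ k, k = 1 - p + q + p * q := ⟨_, rfl⟩
  obtain ⟨k', hk'def⟩ : ∃ k', k' = 1 + p - q + p * q := ⟨_, rfl⟩
  rw [← hkdef] at hk ⊢
  have hkk' : k * k' = (1 - p^2) * (1 - q^2) + 4 * p * q := by rw [hkdef, hk'def]; ring
  have hk'0 : 0 ≤ k' := kprime_nonneg hα hβ hαβ hp hp1 hq hq1 hk hkdef hk'def (by rw [← hσa]; exact hσa0) (by rw [← hσb]; exact hσb0)
  -- identities for vectors
  have idk' : ∀ ξ η : ℝ, k' * (ξ * (1 - p - q - p * q) + η * (1 + p + q - p * q)) =
      (1 + q^2) * ((1 - p^2) * ξ + 2 * p * η) + (1 + p^2) * ((1 - q^2) * η - 2 * q * ξ) := by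
    intro ξ η; rw [hk'def]; ring
  have idsq : ∀ ξ η : ℝ, (ξ * (1 - p - q - p * q) + η * (1 + p + q - p * q))^2 =
      k^2 * (ξ^2 + η^2) + 2 * (((1 - p^2) * ξ + 2 * p * η) * ((1 - q^2) * η - 2 * q * ξ)) := by
    intro ξ η; rw [hkdef]; ring
  -- sign of f on b - a
  have hfab : 0 ≤ α * (1 - p - q - p * q) + β * (1 + p + q - p * q) := by
    rcases hk'0.eq_or_lt with h0 | hk'p
    · -- degenerate
      have hqe : q * (1 - p) = 1 + p := by rw [hk'def] at h0; linarith
      have hp0 : p ≤ 0 := by nlinarith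
      have f1 : (1 - p) * (1 - p - q - p * q) = -(4 * p) := by
        have : (1 - p) * (1 - p - q - p * q) = (1-p)^2 - (q * (1 - p)) * (1 + p) := by ring
        rw [this, hqe]; ring
      have f2 : (1 - p) * (1 + p + q - p * q) = 2 * (1 - p^2) := by
        have : (1 - p) * (1 + p + q - p * q) = (1-p) * (1+p) + (q * (1 - p)) * (1 - p) := by ring
        rw [this, hqe]; ring
      have f3 : 0 ≤ (1 - p) * (α * (1 - p - q - p * q) + β * (1 + p + q - p * q)) := by
        have : (1 - p) * (α * (1 - p - q - p * q) + β * (1 + p + q - p * q)) =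
          α * ((1 - p) * (1 - p - q - p * q)) + β * ((1 - p) * (1 + p + q - p * q)) := by ring
        rw [this, f1, f2]
        have := mul_nonneg hα (show 0 ≤ -(4 * p) by linarith)
        have := mul_nonneg hβ (show 0 ≤ 2 * (1 - p^2) by linarith)
        linarith
      exact nonneg_of_mul_nonneg_right f3 (by linarith)
    · have := idk' α β
      rw [← hσa, ← hσb] at this
      have h1 : 0 ≤ k' * (α * (1 - p - q - p * q) + β * (1 + p + q - p * q)) := by
        rw [this]
        have := mul_nonneg (show 0 ≤ 1 + q^2 by positivity) hσa0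
        have := mul_nonneg (show 0 ≤ 1 + p^2 by positivity) hσb0
        linarith
      exact nonneg_of_mul_nonneg_right h1 hk'p
  -- position of the points of the arc
  have hpt : ∀ s ∈ Icc t0 (t0+1),
      (∃ l : ℝ, 0 ≤ l ∧ l ≤ 1 ∧ x (γ s) = -α + l * α ∧ y (γ s) = l * β) ∨
      (0 < σa ∧ 0 < σb ∧ 0 ≤ α * y (γ s) - β * x (γ s) - α * β) := by
    intro s hs
    obtain ⟨w2, hw2, hw2'⟩ := crossing hF hc h hs.1 hs.2 (show t0 + 1 ≤ t0 + 2 by linarith) (by linarith)
    obtain ⟨w3, hw3, hw3'⟩ := crossing hF hc h hs.1 hs.2 (show t0 + 1 ≤ t0 + 3 by linarith) (by linarith)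
    rw [segment_eq_image'] at hw2 hw3 hw2' hw3'
    obtain ⟨l2, hl2, rfl⟩ := hw2
    obtain ⟨l3, hl3, rfl⟩ := hw3
    obtain ⟨κ2, hκ2, e2⟩ := hw2'
    obtain ⟨κ3, hκ3, e3⟩ := hw3'
    simp only at e2 e3
    have e2x := congrArg x e2
    have e2y := congrArg y e2
    have e3x := congrArg x e3
    have e3y := congrArg y e3
    rw [fr.affx, fr.affx, x0, x1, x2] at e2x
    rw [fr.affy, fr.affy, y0, y1, y2] at e2y
    rw [fr.affx, fr.affx, x0, x1, x3] at e3x
    rw [fr.affy, fr.affy, y0, y1, y3] at e3y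
    obtain ⟨X, hX⟩ : ∃ X, X = x (γ s) := ⟨_, rfl⟩
    obtain ⟨Y, hY⟩ : ∃ Y, Y = y (γ s) := ⟨_, rfl⟩
    rw [← hX] at e2x e3x ⊢
    rw [← hY] at e2y e3y ⊢
    have s0 : 0 ≤ (1 - p^2) * (X + α) + 2 * p * Y := by rw [hX, hY]; exact sup0 _ (hmem s)
    have s1 : 0 ≤ (1 - q^2) * (β - Y) + 2 * q * X := by rw [hX, hY]; exact sup1 _ (hmem s)
    have sup0c := sup0 _ (hmem (t0+2))
    have sup0d := sup0 _ (hmem (t0+3))
    have sup1c := sup1 _ (hmem (t0+2))
    have sup1d := sup1 _ (hmem (t0+3))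
    rw [x2, y2] at sup0c sup1c
    rw [x3, y3] at sup0d sup1d
    have flat2 : κ2 = 0 → ∃ l : ℝ, 0 ≤ l ∧ l ≤ 1 ∧ X = -α + l * α ∧ Y = l * β := by
      intro h0
      rw [h0] at e2x e2y
      exact ⟨l2, hl2.1, hl2.2, by linarith, by linarith⟩
    have flat3 : κ3 = 0 → ∃ l : ℝ, 0 ≤ l ∧ l ≤ 1 ∧ X = -α + l * α ∧ Y = l * β := by
      intro h0
      rw [h0] at e3x e3y
      exact ⟨l3, hl3.1, hl3.2, by linarith, by linarith⟩
    rcases hσb0.eq_or_lt with hb0 | hbp
    · -- σb = 0
      left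
      have hσb' : (1 - q^2) * β - 2 * q * α = 0 := by rw [← hσb, ← hb0]
      rcases sup1c.eq_or_lt with z2 | z2
      · rcases sup1d.eq_or_lt with z3 | z3
        · exfalso
          have a1 : (1 - q^2) * (β + d) = 0 := by linarith
          have a2 : 1 - q^2 = 0 := by
            rcases mul_eq_zero.1 a1 with h | h
            · exact h
            · linarith
          rw [a2] at z2 hσb'
          have a3 : q * (α + c) = 0 := by linarith
          rcases mul_eq_zero.1 a3 with h | h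
          · rw [h] at a2; norm_num at a2
          · linarith
        · apply flat3
          by_contra hne
          have hpos : 0 < κ3 := lt_of_le_of_ne hκ3.1 (Ne.symm hne)
          have t1 : (1 - κ3) * ((1 - q^2) * (β - Y) + 2 * q * X) + κ3 * ((1 - q^2) * (β - -d) + 2 * q * 0) = 0 := by
            have : (1 - κ3) * ((1 - q^2) * (β - Y) + 2 * q * X) + κ3 * ((1 - q^2) * (β - -d) + 2 * q * 0)
              = (1 - q^2) * (β - (Y + κ3 * (-d - Y))) + 2 * q * (X + κ3 * (0 - X)) := by ring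
            rw [this, e3x, e3y]
            linear_combination (1 - l3) * hσb'
          have t2 := mul_nonneg (show 0 ≤ 1 - κ3 by linarith [hκ3.2]) s1
          have t3 := mul_pos hpos z3
          linarith
      · apply flat2
        by_contra hne
        have hpos : 0 < κ2 := lt_of_le_of_ne hκ2.1 (Ne.symm hne)
        have t1 : (1 - κ2) * ((1 - q^2) * (β - Y) + 2 * q * X) + κ2 * ((1 - q^2) * (β - 0) + 2 * q * c) = 0 := by
          have : (1 - κ2) * ((1 - q^2) * (β - Y) + 2 * q * X) + κ2 * ((1 - q^2) * (β - 0) + 2 * q * c)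
            = (1 - q^2) * (β - (Y + κ2 * (0 - Y))) + 2 * q * (X + κ2 * (c - X)) := by ring
          rw [this, e2x, e2y]
          linear_combination (1 - l2) * hσb'
        have t2 := mul_nonneg (show 0 ≤ 1 - κ2 by linarith [hκ2.2]) s1
        have t3 := mul_pos hpos z2
        linarith
    rcases hσa0.eq_or_lt with ha0 | hap
    · -- σa = 0
      left
      have hσa' : (1 - p^2) * α + 2 * p * β = 0 := by rw [← hσa, ← ha0]
      rcases sup0c.eq_or_lt with z2 | z2
      · rcases sup0d.eq_or_lt with z3 | z3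
        · exfalso
          have a1 : (1 - p^2) * (c + α) = 0 := by linarith
          have a2 : 1 - p^2 = 0 := by
            rcases mul_eq_zero.1 a1 with h | h
            · exact h
            · linarith
          rw [a2] at z3 hσa'
          have a3 : p * (β + d) = 0 := by linarith
          rcases mul_eq_zero.1 a3 with h | h
          · rw [h] at a2; norm_num at a2
          · linarith
        · apply flat3
          by_contra hne
          have hpos : 0 < κ3 := lt_of_le_of_ne hκ3.1 (Ne.symm hne)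
          have t1 : (1 - κ3) * ((1 - p^2) * (X + α) + 2 * p * Y) + κ3 * ((1 - p^2) * (0 + α) + 2 * p * -d) = 0 := by
            have : (1 - κ3) * ((1 - p^2) * (X + α) + 2 * p * Y) + κ3 * ((1 - p^2) * (0 + α) + 2 * p * -d)
              = (1 - p^2) * ((X + κ3 * (0 - X)) + α) + 2 * p * (Y + κ3 * (-d - Y)) := by ring
            rw [this, e3x, e3y]
            linear_combination l3 * hσa'
          have t2 := mul_nonneg (show 0 ≤ 1 - κ3 by linarith [hκ3.2]) s0
          have t3 := mul_pos hpos z3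
          linarith
      · apply flat2
        by_contra hne
        have hpos : 0 < κ2 := lt_of_le_of_ne hκ2.1 (Ne.symm hne)
        have t1 : (1 - κ2) * ((1 - p^2) * (X + α) + 2 * p * Y) + κ2 * ((1 - p^2) * (c + α) + 2 * p * 0) = 0 := by
          have : (1 - κ2) * ((1 - p^2) * (X + α) + 2 * p * Y) + κ2 * ((1 - p^2) * (c + α) + 2 * p * 0)
            = (1 - p^2) * ((X + κ2 * (c - X)) + α) + 2 * p * (Y + κ2 * (0 - Y)) := by ring
          rw [this, e2x, e2y]
          linear_combination l2 * hσa'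
        have t2 := mul_nonneg (show 0 ≤ 1 - κ2 by linarith [hκ2.2]) s0
        have t3 := mul_pos hpos z2
        linarith
    · right
      refine ⟨hap, hbp, ?_⟩
      -- beyond the line
      rcases hαβ with hα' | hβ'
      · -- use P3
        have b1 : (1 - κ3) * (α * Y - β * X - α * β) = κ3 * (α * (β + d)) := by
          linear_combination α * e3y - β * e3x
        have hκ : 0 < 1 - κ3 := by
          rcases hκ3.2.eq_or_lt with h1 | h1
          · exfalso
            rw [h1] at b1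
            have := mul_pos hα' hv
            linarith
          · linarith
        have b2 : 0 ≤ (1 - κ3) * (α * Y - β * X - α * β) := by
          rw [b1]; exact mul_nonneg hκ3.1 (mul_nonneg hα hv.le)
        exact nonneg_of_mul_nonneg_right b2 hκ
      · have b1 : (1 - κ2) * (α * Y - β * X - α * β) = κ2 * (β * (α + c)) := by
          linear_combination α * e2y - β * e2x
        have hκ : 0 < 1 - κ2 := by
          rcases hκ2.2.eq_or_lt with h1 | h1
          · exfalso
            rw [h1] at b1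
            have := mul_pos hβ' hu
            linarith
          · linarith
        have b2 : 0 ≤ (1 - κ2) * (α * Y - β * X - α * β) := by
          rw [b1]; exact mul_nonneg hκ2.1 (mul_nonneg hβ hu.le)
        exact nonneg_of_mul_nonneg_right b2 hκ
  -- the three monotone functionals
  have hHa : ∀ s ∈ Icc t0 (t0+1), (1 - p^2) * x (γ t0) + 2 * p * y (γ t0) ≤ (1 - p^2) * x (γ s) + 2 * p * y (γ s)
      ∧ (1 - p^2) * x (γ s) + 2 * p * y (γ s) ≤ (1 - p^2) * x (γ (t0+1)) + 2 * p * y (γ (t0+1)) := by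
    intro s hs
    have s0 := sup0 _ (hmem s)
    have s1 := sup1 _ (hmem s)
    rw [x0, y0, x1, y1]
    refine ⟨by linarith, ?_⟩
    rcases hpt s hs with ⟨l, hl0, hl1, hx, hy⟩ | ⟨ha, hb, hB⟩
    · rw [hx, hy]
      have := mul_nonneg (show 0 ≤ 1 - l by linarith) hσa0
      rw [hσa] at this
      linarith
    · have id1 : σb * (2 * p * β - ((1 - p^2) * x (γ s) + 2 * p * y (γ s))) =
        σa * ((1 - q^2) * (β - y (γ s)) + 2 * q * x (γ s)) + (k * k') * (α * y (γ s) - β * x (γ s) - α * β) := by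
        rw [hkk', hσa, hσb]; ring
      have h1 : 0 ≤ σb * (2 * p * β - ((1 - p^2) * x (γ s) + 2 * p * y (γ s))) := by
        rw [id1]
        exact add_nonneg (mul_nonneg ha.le s1) (mul_nonneg (mul_nonneg hk.le hk'0) hB)
      have := nonneg_of_mul_nonneg_right h1 hb
      linarith
  have hHb : ∀ s ∈ Icc t0 (t0+1), (-(2 * q)) * x (γ t0) + (1 - q^2) * y (γ t0) ≤ (-(2 * q)) * x (γ s) + (1 - q^2) * y (γ s)
      ∧ (-(2 * q)) * x (γ s) + (1 - q^2) * y (γ s) ≤ (-(2 * q)) * x (γ (t0+1)) + (1 - q^2) * y (γ (t0+1)) := by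
    intro s hs
    have s0 := sup0 _ (hmem s)
    have s1 := sup1 _ (hmem s)
    rw [x0, y0, x1, y1]
    refine ⟨?_, by linarith⟩
    rcases hpt s hs with ⟨l, hl0, hl1, hx, hy⟩ | ⟨ha, hb, hB⟩
    · rw [hx, hy]
      have := mul_nonneg hl0 hσb0
      rw [hσb] at this
      linarith
    · have id1 : σa * ((-(2 * q)) * x (γ s) + (1 - q^2) * y (γ s) - 2 * q * α) =
        σb * ((1 - p^2) * (x (γ s) + α) + 2 * p * y (γ s)) + (k * k') * (α * y (γ s) - β * x (γ s) - α * β) := by
        rw [hkk', hσa, hσb]; ring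
      have h1 : 0 ≤ σa * ((-(2 * q)) * x (γ s) + (1 - q^2) * y (γ s) - 2 * q * α) := by
        rw [id1]
        exact add_nonneg (mul_nonneg hb.le s0) (mul_nonneg (mul_nonneg hk.le hk'0) hB)
      have := nonneg_of_mul_nonneg_right h1 ha
      linarith
  have hHf : ∀ s ∈ Icc t0 (t0+1), (1 - p - q - p * q) * x (γ t0) + (1 + p + q - p * q) * y (γ t0) ≤
        (1 - p - q - p * q) * x (γ s) + (1 + p + q - p * q) * y (γ s)
      ∧ (1 - p - q - p * q) * x (γ s) + (1 + p + q - p * q) * y (γ s) ≤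
        (1 - p - q - p * q) * x (γ (t0+1)) + (1 + p + q - p * q) * y (γ (t0+1)) := by
    intro s hs
    have a1 := hHa s hs
    have a2 := hHb s hs
    rw [x0, y0, x1, y1] at a1 a2 ⊢
    rcases hpt s hs with ⟨l, hl0, hl1, hx, hy⟩ | ⟨ha, hb, hB⟩
    · rw [hx, hy]
      have e1 := mul_nonneg hl0 hfab
      have e2 := mul_nonneg (show 0 ≤ 1 - l by linarith) hfab
      constructor
      · linarith
      · linarith
    · have hk'p : 0 < k' := by
        have := idk' α β
        rw [← hσa, ← hσb] at this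
        have h1 : 0 < k' * (α * (1 - p - q - p * q) + β * (1 + p + q - p * q)) := by
          rw [this]
          have := mul_pos (show 0 < 1 + q^2 by positivity) ha
          have := mul_pos (show 0 < 1 + p^2 by positivity) hb
          linarith
        rcases hk'0.eq_or_lt with h0 | h0
        · rw [← h0, zero_mul] at h1; exact absurd h1 (lt_irrefl _)
        · exact h0
      constructor
      · have := idk' (x (γ s) + α) (y (γ s))
        have h1 : 0 ≤ k' * ((x (γ s) + α) * (1 - p - q - p * q) + y (γ s) * (1 + p + q - p * q)) := by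
          rw [this]
          apply add_nonneg
          · exact mul_nonneg (by positivity) (by linarith [a1.1])
          · exact mul_nonneg (by positivity) (by linarith [a2.1])
        have := nonneg_of_mul_nonneg_right h1 hk'p
        linarith
      · have := idk' (0 - x (γ s)) (β - y (γ s))
        have h1 : 0 ≤ k' * ((0 - x (γ s)) * (1 - p - q - p * q) + (β - y (γ s)) * (1 + p + q - p * q)) := by
          rw [this]
          apply add_nonneg
          · exact mul_nonneg (by positivity) (by linarith [a1.2])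
          · exact mul_nonneg (by positivity) (by linarith [a2.2])
        have := nonneg_of_mul_nonneg_right h1 hk'p
        linarith
  have monA := mono_of_between hF hc h fr (show t0 + 1 ≤ t0 + 4 by linarith) _ _
    (fun s hs => (hHa s hs).1) (fun s hs => (hHa s hs).2)
  have monB := mono_of_between hF hc h fr (show t0 + 1 ≤ t0 + 4 by linarith) _ _
    (fun s hs => (hHb s hs).1) (fun s hs => (hHb s hs).2)
  have monF := mono_of_between hF hc h fr (show t0 + 1 ≤ t0 + 4 by linarith) _ _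
    (fun s hs => (hHf s hs).1) (fun s hs => (hHf s hs).2)
  -- comparison of distances
  have hdist : ∀ s ∈ Icc t0 (t0+1), ∀ t ∈ Icc t0 (t0+1), s ≤ t →
      k * dist (γ s) (γ t) ≤ ((1 - p - q - p * q) * x (γ t) + (1 + p + q - p * q) * y (γ t)) -
        ((1 - p - q - p * q) * x (γ s) + (1 + p + q - p * q) * y (γ s)) := by
    intro s hs t ht hst
    have mA := monA hs ht hst
    have mB := monB hs ht hst
    have mF := monF hs ht hst
    simp only at mA mB mF
    apply (sq_le_sq₀ (mul_nonneg hk.le dist_nonneg) (by linarith)).1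
    have e1 := idsq (x (γ t) - x (γ s)) (y (γ t) - y (γ s))
    have e2 : ((1 - p - q - p * q) * x (γ t) + (1 + p + q - p * q) * y (γ t)) -
        ((1 - p - q - p * q) * x (γ s) + (1 + p + q - p * q) * y (γ s)) =
        (x (γ t) - x (γ s)) * (1 - p - q - p * q) + (y (γ t) - y (γ s)) * (1 + p + q - p * q) := by ring
    rw [e2, e1, mul_pow, dist_comm, fr.dist_sq]
    have e3 : 0 ≤ ((1 - p^2) * (x (γ t) - x (γ s)) + 2 * p * (y (γ t) - y (γ s))) *
      ((1 - q^2) * (y (γ t) - y (γ s)) - 2 * q * (x (γ t) - x (γ s))) := by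
      apply mul_nonneg <;> linarith
    linarith
  -- conclusion
  obtain ⟨G, hG⟩ : ∃ G : ℝ → ℝ, ∀ t, G t = ((1 - p - q - p * q) * x (γ t) + (1 + p + q - p * q) * y (γ t)) / k :=
    ⟨_, fun _ => rfl⟩
  have hGmono : MonotoneOn G (Icc t0 (t0+1)) := by
    intro s hs t ht hst
    rw [hG, hG]
    exact div_le_div_of_nonneg_right (monF hs ht hst) hk.le
  have hGd : ∀ s ∈ Icc t0 (t0+1), ∀ t ∈ Icc t0 (t0+1), s ≤ t → dist (γ s) (γ t) ≤ G t - G s := by
    intro s hs t ht hst
    rw [hG, hG, ← sub_div, le_div_iff₀ hk]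
    have := hdist s hs t ht hst
    linarith
  have hv1 : eVariationOn γ (Icc t0 (t0+1)) ≤ eVariationOn G (Icc t0 (t0+1)) := by
    apply iSup_mono
    rintro ⟨n, u, hu, hus⟩
    apply Finset.sum_le_sum
    intro i _
    rw [edist_comm (γ _), edist_comm (G _), edist_dist, edist_dist]
    apply ENNReal.ofReal_le_ofReal
    refine (hGd _ (hus i) _ (hus (i+1)) (hu (Nat.le_succ i))).trans ?_
    rw [Real.dist_eq, abs_sub_comm]
    exact le_abs_self _
  have ht0 : t0 ∈ Icc t0 (t0+1) := ⟨le_refl _, by linarith⟩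
  have ht1 : t0 + 1 ∈ Icc t0 (t0+1) := ⟨by linarith, le_refl _⟩
  have hv2 : eVariationOn G (Icc t0 (t0+1)) ≤ ENNReal.ofReal (G (t0+1) - G t0) := by
    have := (hGmono.eVariationOn_eq ht0 ht1).le
    rwa [inter_self] at this
  have hv3 : ENNReal.ofReal L ≤ ENNReal.ofReal (G (t0+1) - G t0) := hvar.trans (hv1.trans hv2)
  have hG0 : 0 ≤ G (t0+1) - G t0 := by
    have := hGmono ht0 ht1 (by linarith)
    linarith
  have hv4 : L ≤ G (t0+1) - G t0 := (ENNReal.ofReal_le_ofReal_iff hG0).1 hv3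
  rw [hG, hG, x0, y0, x1, y1, ← sub_div, le_div_iff₀ hk] at hv4
  linarith

end Pool.Agent.Lib_helper16.Quad
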