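import Mathlib

/-! Topological part: chords of a convex curve between alternating points cross. -/

open Set Metric

namespace Pool.Agent.Lib_helper16.Quad

abbrev E2 := EuclideanSpace ℝ (Fin 2)

/-- `γ` runs once around the boundary of `F` in each parameter interval of length `4`. -/
structure BoundaryLoop (F : Set E2) (γ : ℝ → E2) : Prop where
  continuous : Continuous γ
  periodic : Function.Periodic γ 4
  injOn : InjOn γ (Ico 0 4)
  range_eq : range γ = frontier F

variable {F : Set E2} {γ : ℝ → E2}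

lemma BoundaryLoop.ne (h : BoundaryLoop F γ) {s t : ℝ} (hst : s < t) (hts : t < s + 4) :
    γ s ≠ γ t := by
  intro heq
  have h4 : (0:ℝ) < 4 := by norm_num
  have hmod : ∀ x, γ (toIcoMod h4 0 x) = γ x := by
    intro x
    have := h.periodic.sub_zsmul_eq (x := x) (toIcoDiv h4 0 x)
    rw [← this]; rfl
  have h1 : toIcoMod h4 0 s = toIcoMod h4 0 t := by
    apply h.injOn
    · have := toIcoMod_mem_Ico h4 0 s; simpa using this
    · have := toIcoMod_mem_Ico h4 0 t; simpa using this
    · rw [hmod, hmod, heq]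
  have h2 : s - toIcoDiv h4 0 s • (4:ℝ) = t - toIcoDiv h4 0 t • (4:ℝ) := h1
  have h3 : t - s = ((toIcoDiv h4 0 t - toIcoDiv h4 0 s : ℤ) : ℝ) * 4 := by
    rw [zsmul_eq_mul, zsmul_eq_mul] at h2
    push_cast
    linarith
  have h5 : (0:ℝ) < ((toIcoDiv h4 0 t - toIcoDiv h4 0 s : ℤ) : ℝ) := by nlinarith
  have h6 : ((toIcoDiv h4 0 t - toIcoDiv h4 0 s : ℤ) : ℝ) < 1 := by nlinarith
  have h7 : (0:ℤ) < toIcoDiv h4 0 t - toIcoDiv h4 0 s := by exact_mod_cast h5
  have h8 : toIcoDiv h4 0 t - toIcoDiv h4 0 s < (1:ℤ) := by exact_mod_cast h6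
  omega

lemma BoundaryLoop.mem_frontier (h : BoundaryLoop F γ) (t : ℝ) : γ t ∈ frontier F := by
  rw [← h.range_eq]; exact ⟨t, rfl⟩

lemma BoundaryLoop.mem (hc : IsCompact F) (h : BoundaryLoop F γ) (t : ℝ) : γ t ∈ F :=
  hc.isClosed.frontier_subset (h.mem_frontier t)

lemma BoundaryLoop.exists_Ico (h : BoundaryLoop F γ) (a : ℝ) {z : E2} (hz : z ∈ frontier F) :
    ∃ t ∈ Ico a (a + 4), γ t = z := by
  rw [← h.range_eq] at hz
  obtain ⟨t, rfl⟩ := hz
  obtain ⟨s, hs, hs'⟩ := h.periodic.exists_mem_Ico (by norm_num) t a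
  exact ⟨s, hs, hs'.symm⟩

/-- a nonzero functional is larger somewhere on the frontier than at any given interior point -/
lemma exists_frontier_gt (hc : IsCompact F) (G : E2 →L[ℝ] ℝ) (hG : G ≠ 0) {m : E2}
    (hm : m ∈ interior F) : ∃ z ∈ frontier F, G m < G z := by
  have hne : F.Nonempty := ⟨m, interior_subset hm⟩
  obtain ⟨z, hz, hmax⟩ := hc.exists_isMaxOn hne G.continuous.continuousOn
  have key : ∀ y ∈ interior F, IsMaxOn G F y → False := by
    intro y hy hy'
    have : IsLocalMax G y := hy'.isLocalMax (mem_interior_iff_mem_nhds.1 hy)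
    exact hG (this.hasFDerivAt_eq_zero G.hasFDerivAt)
  have hzf : z ∈ frontier F := by
    rw [hc.isClosed.frontier_eq]
    exact ⟨hz, fun hzi => key z hzi hmax⟩
  refine ⟨z, hzf, ?_⟩
  have h1 : G m ≤ G z := hmax (interior_subset hm)
  rcases h1.lt_or_eq with h | h
  · exact h
  · exfalso
    apply key m hm
    intro y hy
    have : G y ≤ G z := hmax hy
    exact this.trans h.ge

lemma sign_const {f : ℝ → ℝ} (hf : Continuous f) {a b : ℝ} (h : ∀ t ∈ Ioo a b, f t ≠ 0) {s t : ℝ}
    (hs : s ∈ Ioo a b) (ht : t ∈ Ioo a b) (hpos : 0 < f s) : 0 < f t := by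
  by_contra hcon
  have hlt : f t < 0 := lt_of_le_of_ne (not_lt.1 hcon) (h t ht)
  have h0 : (0:ℝ) ∈ uIcc (f s) (f t) := by
    rw [mem_uIcc]; right; exact ⟨hlt.le, hpos.le⟩
  obtain ⟨x, hx, hx0⟩ := intermediate_value_uIcc hf.continuousOn h0
  exact h x (ordConnected_Ioo.uIcc_subset hs ht hx) hx0

/-- the crossing lemma -/
theorem crossing (hF : Convex ℝ F) (hc : IsCompact F) (h : BoundaryLoop F γ)
    {t1 t2 t3 t4 : ℝ} (h12 : t1 ≤ t2) (h23 : t2 ≤ t3) (h34 : t3 ≤ t4) (h41 : t4 ≤ t1 + 4) :
    (segment ℝ (γ t1) (γ t3) ∩ segment ℝ (γ t2) (γ t4)).Nonempty := by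
  rcases h12.eq_or_lt with h12 | h12
  · subst h12; exact ⟨γ t1, left_mem_segment _ _ _, left_mem_segment _ _ _⟩
  rcases h23.eq_or_lt with h23 | h23
  · subst h23; exact ⟨γ t2, right_mem_segment _ _ _, left_mem_segment _ _ _⟩
  rcases h34.eq_or_lt with h34 | h34
  · subst h34; exact ⟨γ t3, right_mem_segment _ _ _, right_mem_segment _ _ _⟩
  rcases h41.eq_or_lt with h41 | h41
  · subst h41
    refine ⟨γ t1, left_mem_segment _ _ _, ?_⟩
    rw [h.periodic t1]; exact right_mem_segment _ _ _
  have hfr : ∀ {z}, z ∈ frontier F → z ∉ interior F := fun {z} hz hz' => by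
    rw [hc.isClosed.frontier_eq] at hz; exact hz.2 hz'
  obtain ⟨P, hP⟩ : ∃ P, P = γ t1 := ⟨_, rfl⟩
  obtain ⟨Q, hQ⟩ : ∃ Q, Q = γ t3 := ⟨_, rfl⟩
  have hPf : P ∈ frontier F := hP ▸ h.mem_frontier _
  have hQf : Q ∈ frontier F := hQ ▸ h.mem_frontier _
  have hPF : P ∈ F := hc.isClosed.frontier_subset hPf
  have hQF : Q ∈ F := hc.isClosed.frontier_subset hQf
  have hPQ : P ≠ Q := by rw [hP, hQ]; exact h.ne (by linarith) (by linarith)
  rw [← hP, ← hQ]
  by_cases hint : (openSegment ℝ P Q ∩ interior F).Nonempty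
  · -- chord through the interior
    obtain ⟨m, hm, hmi⟩ := hint
    obtain ⟨μ, hμ, rfl⟩ : ∃ μ ∈ Ioo (0:ℝ) 1, P + μ • (Q - P) = m := by
      rw [openSegment_eq_image'] at hm
      obtain ⟨μ, hμ, hm⟩ := hm
      exact ⟨μ, hμ, hm⟩
    have hline : ∀ l : ℝ, P + l • (Q - P) ∈ F → 0 ≤ l ∧ l ≤ 1 := by
      intro l hl
      constructor
      · by_contra hneg
        push Not at hneg
        have : P ∈ openSegment ℝ (P + μ • (Q - P)) (P + l • (Q - P)) := by
          rw [openSegment_eq_image']
          refine ⟨μ / (μ - l), ⟨div_pos hμ.1 (by linarith [hμ.1]), ?_⟩, ?_⟩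
          · rw [div_lt_one (by linarith [hμ.1])]; linarith
          · have hne : μ - l ≠ 0 := by linarith [hμ.1]
            ext i
            simp only [PiLp.add_apply, PiLp.smul_apply, PiLp.sub_apply, smul_eq_mul]
            field_simp
            ring
        exact hfr hPf (hF.openSegment_interior_self_subset_interior hmi hl this)
      · by_contra hneg
        push Not at hneg
        have : Q ∈ openSegment ℝ (P + μ • (Q - P)) (P + l • (Q - P)) := by
          rw [openSegment_eq_image']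
          refine ⟨(1 - μ) / (l - μ), ⟨div_pos (by linarith [hμ.2]) (by linarith [hμ.2]), ?_⟩, ?_⟩
          · rw [div_lt_one (by linarith [hμ.2])]; linarith
          · have hne : l - μ ≠ 0 := by linarith [hμ.2]
            ext i
            simp only [PiLp.add_apply, PiLp.smul_apply, PiLp.sub_apply, smul_eq_mul]
            field_simp
            ring
        exact hfr hQf (hF.openSegment_interior_self_subset_interior hmi hl this)
    have hopen : ∀ l : ℝ, 0 < l → l < 1 → P + l • (Q - P) ∈ interior F := by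
      intro l hl0 hl1
      rcases lt_trichotomy l μ with hlt | heq | hgt
      · apply hF.openSegment_interior_self_subset_interior hmi hPF
        rw [openSegment_eq_image']
        refine ⟨(μ - l) / μ, ⟨div_pos (by linarith) hμ.1, ?_⟩, ?_⟩
        · rw [div_lt_one hμ.1]; linarith
        · have hne : μ ≠ 0 := hμ.1.ne'
          ext i
          simp only [PiLp.add_apply, PiLp.smul_apply, PiLp.sub_apply, smul_eq_mul]
          field_simp
          ring
      · rw [heq]; exact hmi
      · apply hF.openSegment_interior_self_subset_interior hmi hQF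
        rw [openSegment_eq_image']
        refine ⟨(l - μ) / (1 - μ), ⟨div_pos (by linarith) (by linarith [hμ.2]), ?_⟩, ?_⟩
        · rw [div_lt_one (by linarith [hμ.2])]; linarith
        · have hne : 1 - μ ≠ 0 := by linarith [hμ.2]
          ext i
          simp only [PiLp.add_apply, PiLp.smul_apply, PiLp.sub_apply, smul_eq_mul]
          field_simp
          ring
    -- the functional
    obtain ⟨G, hG⟩ : ∃ G : E2 →L[ℝ] ℝ, ∀ z, G z = z 0 * (Q 1 - P 1) - z 1 * (Q 0 - P 0) := by
      refine ⟨(Q 1 - P 1) • (EuclideanSpace.proj 0 : E2 →L[ℝ] ℝ) -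
        (Q 0 - P 0) • (EuclideanSpace.proj 1 : E2 →L[ℝ] ℝ), fun z => ?_⟩
      simp; ring
    have hGPQ : G Q = G P := by rw [hG, hG]; ring
    have hne01 : Q 0 - P 0 ≠ 0 ∨ Q 1 - P 1 ≠ 0 := by
      by_contra hcon
      push Not at hcon
      apply hPQ
      ext i
      fin_cases i
      · simp only [Fin.zero_eta]; linarith [hcon.1]
      · simp only [Fin.mk_one]; linarith [hcon.2]
    have hG0 : G ≠ 0 := by
      intro h0
      have e0 := hG (EuclideanSpace.single 0 1)
      have e1 := hG (EuclideanSpace.single 1 1)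
      rw [h0] at e0 e1
      simp at e0 e1
      rcases hne01 with h | h
      · exact h (by linarith)
      · exact h (by linarith)
    have honline : ∀ z, G z = G P → ∃ l : ℝ, z = P + l • (Q - P) := by
      intro z hz
      rw [hG, hG] at hz
      rcases hne01 with h | h
      · refine ⟨(z 0 - P 0) / (Q 0 - P 0), ?_⟩
        ext i
        simp only [PiLp.add_apply, PiLp.smul_apply, PiLp.sub_apply, smul_eq_mul]
        fin_cases i
        · simp only [Fin.zero_eta]; field_simp; ring
        · simp only [Fin.mk_one]; field_simp; linarith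
      · refine ⟨(z 1 - P 1) / (Q 1 - P 1), ?_⟩
        ext i
        simp only [PiLp.add_apply, PiLp.smul_apply, PiLp.sub_apply, smul_eq_mul]
        fin_cases i
        · simp only [Fin.zero_eta]; field_simp; linarith
        · simp only [Fin.mk_one]; field_simp; ring
    have hGm : G (P + μ • (Q - P)) = G P := by
      rw [map_add, map_smul, map_sub, hGPQ]; simp
    have hzero : ∀ z ∈ frontier F, G z = G P → z = P ∨ z = Q := by
      intro z hz hGz
      obtain ⟨l, rfl⟩ := honline z hGz
      obtain ⟨hl0, hl1⟩ := hline l (hc.isClosed.frontier_subset hz)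
      rcases hl0.eq_or_lt with rfl | hl0
      · left; simp
      rcases hl1.eq_or_lt with rfl | hl1
      · right; simp
      exact absurd (hopen l hl0 hl1) (hfr hz)
    obtain ⟨zp, hzp, hGzp⟩ := exists_frontier_gt hc G hG0 hmi
    obtain ⟨zm, hzm, hGzm⟩ := exists_frontier_gt hc (-G) (neg_ne_zero.2 hG0) hmi
    rw [hGm] at hGzp
    have hGzm' : G zm < G P := by
      have : (-G) (P + μ • (Q - P)) = - G P := by
        rw [neg_apply, hGm]
      rw [this, neg_apply] at hGzm
      linarith
    have hcont : Continuous (fun t => G (γ t) - G P) := by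
      have := h.continuous
      fun_prop
    have hcont' : Continuous (fun t => -(G (γ t) - G P)) := hcont.neg
    have hA1 : ∀ t ∈ Ioo t1 t3, G (γ t) - G P ≠ 0 := by
      intro t ht h0
      rcases hzero (γ t) (h.mem_frontier t) (by linarith) with h' | h'
      · exact h.ne ht.1 (by linarith [ht.2]) (by rw [h', hP])
      · exact h.ne ht.2 (by linarith [ht.1]) (by rw [h', hQ])
    have hA2 : ∀ t ∈ Ioo t3 (t1 + 4), G (γ t) - G P ≠ 0 := by
      intro t ht h0
      rcases hzero (γ t) (h.mem_frontier t) (by linarith) with h' | h'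
      · refine h.ne (s := t) (t := t1 + 4) ht.2 (by linarith [ht.1]) ?_
        rw [h.periodic t1, h', hP]
      · exact h.ne ht.1 (by linarith [ht.2]) (by rw [h', hQ])
    have hloc : ∀ z ∈ frontier F, G z ≠ G P → (∃ t ∈ Ioo t1 t3, γ t = z) ∨ (∃ t ∈ Ioo t3 (t1+4), γ t = z) := by
      intro z hz hGz
      obtain ⟨t, ht, rfl⟩ := h.exists_Ico t1 hz
      have ht1 : t ≠ t1 := by rintro rfl; exact hGz (by rw [hP])
      have ht3 : t ≠ t3 := by rintro rfl; exact hGz (by rw [← hQ, hGPQ])
      rcases lt_or_gt_of_ne ht3 with h' | h'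
      · left; exact ⟨t, ⟨lt_of_le_of_ne ht.1 (Ne.symm ht1), h'⟩, rfl⟩
      · right; exact ⟨t, ⟨h', ht.2⟩, rfl⟩
    -- opposite signs
    have hopp : (0 < G (γ t2) - G P ∧ G (γ t4) - G P < 0) ∨ (G (γ t2) - G P < 0 ∧ 0 < G (γ t4) - G P) := by
      have ht2 : t2 ∈ Ioo t1 t3 := ⟨h12, h23⟩
      have ht4 : t4 ∈ Ioo t3 (t1+4) := ⟨h34, h41⟩
      rcases hloc zp hzp hGzp.ne' with ⟨tp, htp, rfl⟩ | ⟨tp, htp, rfl⟩
      · have a1 : 0 < G (γ t2) - G P := sign_const hcont hA1 htp ht2 (by linarith)
        rcases hloc zm hzm hGzm'.ne with ⟨tm, htm, rfl⟩ | ⟨tm, htm, rfl⟩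
        · have := sign_const hcont hA1 ht2 htm a1
          linarith
        · have := sign_const hcont' (a := t3) (b := t1+4) (fun t ht h0 => hA2 t ht (by linarith)) htm ht4 (by linarith)
          left; exact ⟨a1, by linarith⟩
      · have a1 : 0 < G (γ t4) - G P := sign_const hcont hA2 htp ht4 (by linarith)
        rcases hloc zm hzm hGzm'.ne with ⟨tm, htm, rfl⟩ | ⟨tm, htm, rfl⟩
        · have := sign_const hcont' (a := t1) (b := t3) (fun t ht h0 => hA1 t ht (by linarith)) htm ht2 (by linarith)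
          right; exact ⟨by linarith, a1⟩
        · have := sign_const hcont hA2 ht4 htm a1
          linarith
    -- the crossing point
    obtain ⟨κ, hκ0, hκ1, hκ⟩ : ∃ κ : ℝ, 0 ≤ κ ∧ κ ≤ 1 ∧
        G (γ t2 + κ • (γ t4 - γ t2)) = G P := by
      obtain ⟨x, hx⟩ : ∃ x, x = G (γ t2) - G P := ⟨_, rfl⟩
      obtain ⟨y, hy⟩ : ∃ y, y = G (γ t4) - G P := ⟨_, rfl⟩
      have hxy : (0 < x ∧ y < 0) ∨ (x < 0 ∧ 0 < y) := by rw [hx, hy]; exact hopp
      have hne : x - y ≠ 0 := by
        rcases hxy with h | h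
        · linarith [h.1, h.2]
        · intro h0; linarith [h.1, h.2]
      refine ⟨x / (x - y), ?_, ?_, ?_⟩
      · rcases hxy with h | h
        · exact div_nonneg h.1.le (by linarith [h.1, h.2])
        · exact div_nonneg_of_nonpos h.1.le (by linarith [h.1, h.2])
      · rcases hxy with h | h
        · rw [div_le_one (by linarith [h.1, h.2])]; linarith [h.2]
        · rw [div_le_one_of_neg (by linarith [h.1, h.2])]; linarith [h.2]
      · have e2 : G (γ t2) = x + G P := by rw [hx]; ring
        have e4 : G (γ t4) = y + G P := by rw [hy]; ring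
        rw [map_add, map_smul, map_sub, e2, e4, smul_eq_mul]
        field_simp
        ring
    refine ⟨γ t2 + κ • (γ t4 - γ t2), ?_, ?_⟩
    · obtain ⟨l, hl⟩ := honline _ hκ
      have hwF : γ t2 + κ • (γ t4 - γ t2) ∈ F := by
        apply hF.segment_subset (h.mem hc t2) (h.mem hc t4)
        rw [segment_eq_image']
        exact ⟨κ, ⟨hκ0, hκ1⟩, rfl⟩
      rw [hl] at hwF ⊢
      obtain ⟨hl0, hl1⟩ := hline l hwF
      rw [segment_eq_image']
      exact ⟨l, ⟨hl0, hl1⟩, rfl⟩
    · rw [segment_eq_image']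
      exact ⟨κ, ⟨hκ0, hκ1⟩, rfl⟩
  · -- chord inside the boundary
    have hsub : segment ℝ P Q ⊆ frontier F := by
      intro x hx
      rw [← insert_endpoints_openSegment] at hx
      rcases hx with rfl | rfl | hx
      · exact hPf
      · exact hQf
      · rw [hc.isClosed.frontier_eq]
        refine ⟨hF.segment_subset hPF hQF (openSegment_subset_segment _ _ _ hx), fun hxi => hint ⟨x, hx, hxi⟩⟩
    have hpre : IsPreconnected (segment ℝ P Q) := (convex_segment P Q).isPreconnected
    rw [isPreconnected_closed_iff] at hpre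
    have hU : IsClosed (γ '' Icc (t4 - 4) t2) := (isCompact_Icc.image h.continuous).isClosed
    have hV : IsClosed (γ '' Icc t2 t4) := (isCompact_Icc.image h.continuous).isClosed
    obtain ⟨x, hx, ⟨s, hs, hsx⟩, ⟨t, ht, htx⟩⟩ := hpre _ _ hU hV (by
      intro z hz
      obtain ⟨t, ht, rfl⟩ := h.exists_Ico (t4 - 4) (hsub hz)
      rcases le_total t t2 with h' | h'
      · left; exact ⟨t, ⟨ht.1, h'⟩, rfl⟩
      · right; exact ⟨t, ⟨h', by linarith [ht.2]⟩, rfl⟩)
      ⟨P, left_mem_segment _ _ _, t1, ⟨by linarith, h12.le⟩, hP.symm⟩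
      ⟨Q, right_mem_segment _ _ _, t3, ⟨h23.le, h34.le⟩, hQ.symm⟩
    refine ⟨x, hx, ?_⟩
    have hst : s ≤ t := hs.2.trans ht.1
    rcases hst.eq_or_lt with heq | hlt
    · have : s = t2 := le_antisymm hs.2 (heq ▸ ht.1)
      rw [← hsx, this]; exact left_mem_segment _ _ _
    · by_cases h4 : t < s + 4
      · exact absurd (hsx.trans htx.symm) (h.ne hlt h4)
      · have : t = t4 := le_antisymm ht.2 (by linarith [hs.1])
        rw [← htx, this]; exact right_mem_segment _ _ _

end Pool.Agent.Lib_helper16.Quad
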